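import Pool.Agent.U365.HC.Dim

/-!
# The metric dimension and the edge metric dimension of almost all hypercubes are equal

`dim (Q d)` and `edim (Q d)` are the metric dimension and the edge metric dimension of the
`d`-dimensional hypercube. The question is whether they are equal for all `d ≥ 1`, `d ≠ 4`.

We prove that the number of the `d ≤ N` with `dim (Q d) ≠ edim (Q d)` is at most
`(2 + ε) N / log₂ N` for all large `N`, for every `ε > 0`; so the two dimensions are equal for all `d`
outside a set of density zero. Moreover `d` is even, `edim (Q d) = dim (Q (d - 1))` and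
`dim (Q d) = dim (Q (d - 1)) + 1` for every exceptional `d ≥ 3`.

Proof. With signs instead of truth values, `S` resolves the vertices iff no nonzero vector with
entries `-1, 0, 1` is orthogonal to all elements of `S`, and, for `d ≥ 3`, it resolves the edges iff
this is so for the vectors with at least one zero entry (for edges in different directions `i`, `j` a
parity argument gives a vector supported on `i`, `j`). Hence
`dim (Q (d - 1)) ≤ edim (Q d) ≤ dim (Q d) ≤ dim (Q (d - 1)) + 1`, with equality in the second place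
for odd `d`, and the number of exceptional `d ≤ N` is at most `dim (Q N) + 2`. Finally
`dim (Q N) ≤ (2 + o(1)) N / log₂ N` (Lindström), for which we give a recursive construction:
`dim (Q (k 2^(k-1) + 1)) ≤ 2^k`, and subadditivity.
-/

set_option autoImplicit false

open Filter

namespace Pool.Agent.Results.MP_41989c_co.AlmostAllDimensions

/-- the metric dimension of a graph -/
noncomputable def dim {V : Type} (G : SimpleGraph V) : ℕ :=
  sInf {n : ℕ | ∃ S : Finset V, S.card = n ∧
    ∀ u v : V, u ≠ v → ∃ s ∈ S, G.dist u s ≠ G.dist v s}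

/-- the edge metric dimension of a graph -/
noncomputable def edim {V : Type} (G : SimpleGraph V) : ℕ :=
  sInf {n : ℕ | ∃ S : Finset V, S.Nonempty ∧ S.card = n ∧
    ∀ u v x y : V, G.Adj u v → G.Adj x y → s(u, v) ≠ s(x, y) →
      ∃ s ∈ S, min (G.dist u s) (G.dist v s) ≠ min (G.dist x s) (G.dist y s)}

/-- the `d`-dimensional hypercube -/
def Q (d : ℕ) : SimpleGraph (Fin d → Bool) where
  Adj x y := hammingDist x y = 1
  symm := ⟨fun x y h => by rw [hammingDist_comm]; exact h⟩
  loopless := ⟨fun x h => by simp at h⟩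

lemma dim_eq (d : ℕ) : dim (Q d) = Pool.Agent.U365.HC.vdim d := rfl

lemma edim_eq (d : ℕ) : edim (Q d) = Pool.Agent.U365.HC.edim d := rfl

theorem result :
    (∀ d : ℕ, 3 ≤ d → dim (Q d) ≠ edim (Q d) →
      Even d ∧ edim (Q d) = dim (Q (d - 1)) ∧ dim (Q d) = dim (Q (d - 1)) + 1) ∧
    ∀ ε : ℝ, 0 < ε → ∀ᶠ N : ℕ in atTop,
      (((Finset.Icc 1 N).filter fun d => dim (Q d) ≠ edim (Q d)).card : ℝ) ≤
        (2 + ε) * (N / Real.logb 2 N) := by
  refine ⟨fun d hd h => Pool.Agent.U365.HC.exceptional hd h, fun ε hε => ?_⟩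
  -- the exponent
  set δ : ℝ := min (1 / 2) (ε / 16) with hδ
  have hδ0 : 0 < δ := by positivity
  have hδ1 : δ ≤ 1 / 2 := min_le_left _ _
  have hδ2 : δ ≤ ε / 16 := min_le_right _ _
  have hl2 : 0 < Real.log 2 := Real.log_pos (by norm_num)
  have hlogb : Tendsto (fun N : ℕ => Real.logb 2 (N : ℝ)) atTop atTop :=
    (Real.tendsto_logb_atTop (by norm_num)).comp tendsto_natCast_atTop_atTop
  -- `N ^ (-δ) log₂ N → 0`
  have ht1 : Tendsto (fun N : ℕ => Real.logb 2 (N : ℝ) / (N : ℝ) ^ δ) atTop (nhds 0) := by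
    have h1 : Tendsto (fun x : ℝ => Real.log x / x ^ δ) atTop (nhds 0) :=
      (isLittleO_log_rpow_atTop hδ0).tendsto_div_nhds_zero
    have h2 := (h1.comp tendsto_natCast_atTop_atTop).mul_const ((Real.log 2)⁻¹)
    rw [zero_mul] at h2
    refine h2.congr fun N => ?_
    simp only [Function.comp, Real.logb]
    field_simp
  have ht2 : Tendsto (fun N : ℕ => 2 * (Real.logb 2 (N : ℝ) / (N : ℝ))) atTop (nhds 0) := by
    have h1 : Tendsto (fun x : ℝ => Real.log x / x ^ (1 : ℝ)) atTop (nhds 0) :=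
      (isLittleO_log_rpow_atTop one_pos).tendsto_div_nhds_zero
    have h2 := ((h1.comp tendsto_natCast_atTop_atTop).mul_const ((Real.log 2)⁻¹)).const_mul 2
    rw [zero_mul, mul_zero] at h2
    refine h2.congr fun N => ?_
    simp only [Function.comp, Real.logb, Real.rpow_one]
    field_simp
  filter_upwards [hlogb.eventually_ge_atTop 8, hlogb.eventually_ge_atTop (32 / ε),
    ht1.eventually_le_const (show (0 : ℝ) < ε / 4 by positivity),
    ht2.eventually_le_const (show (0 : ℝ) < ε / 4 by positivity), eventually_ge_atTop 2]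
    with N hN1 hN1' hN2 hN3 hN4
  set L : ℝ := Real.logb 2 (N : ℝ) with hL
  have hNpos : (0 : ℝ) < N := by
    have : 0 < N := by omega
    exact_mod_cast this
  have hLpos : 0 < L := by linarith
  -- the choice of `k`
  set k : ℕ := ⌊(1 - δ) * L⌋₊ with hk
  have hk1 : (k : ℝ) ≤ (1 - δ) * L := Nat.floor_le (by
    have : 0 ≤ 1 - δ := by linarith
    positivity)
  have hk2 : (1 - δ) * L < k + 1 := Nat.lt_floor_add_one _
  have hkpos : (0 : ℝ) < k := by
    have : (1 / 2 : ℝ) * 8 ≤ (1 - δ) * L := by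
      apply mul_le_mul <;> linarith
    linarith
  have hpow : ((2 : ℝ) ^ k) ≤ (N : ℝ) / (N : ℝ) ^ δ := by
    have h1 : ((2 : ℝ) ^ (k : ℝ)) ≤ (2 : ℝ) ^ ((1 - δ) * L) :=
      Real.rpow_le_rpow_of_exponent_le (by norm_num) hk1
    have h2 : (2 : ℝ) ^ ((1 - δ) * L) = (N : ℝ) ^ (1 - δ) := by
      rw [mul_comm, Real.rpow_mul (by norm_num), hL, Real.rpow_logb (by norm_num) (by norm_num) hNpos]
    rw [Real.rpow_natCast, h2, Real.rpow_sub hNpos, Real.rpow_one] at h1
    exact h1
  have hup := Pool.Agent.U365.HC.vdim_upper k N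
  have hcount := Pool.Agent.U365.HC.count_le N
  have hup' : (k : ℝ) * (Pool.Agent.U365.HC.vdim N : ℝ) ≤ 2 * N + k * 2 ^ k := by
    exact_mod_cast hup
  have hv : (Pool.Agent.U365.HC.vdim N : ℝ) ≤ 2 * N / k + 2 ^ k := by
    have h1 : 2 * (N : ℝ) / k + 2 ^ k = (2 * N + k * 2 ^ k) / k := by field_simp
    rw [h1, le_div_iff₀ hkpos]
    linarith
  have hcount' : (((Finset.Icc 1 N).filter fun d => dim (Q d) ≠ edim (Q d)).card : ℝ) ≤
      Pool.Agent.U365.HC.vdim N + 2 := by
    exact_mod_cast hcount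
  -- final comparison
  have hA : 2 * (N : ℝ) / k ≤ (2 + ε / 2) * (N / L) := by
    rw [div_le_iff₀ hkpos]
    have h1 : L ≤ (1 + ε / 4) * k := by
      -- `(1 - δ) L ≤ k + 1`
      have h2 : L * (1 - δ) - 1 ≤ k := by linarith
      by_cases hε1 : ε ≤ 4
      · have h4 : (1 + ε / 4) * (L * (1 - δ) - 1) ≤ (1 + ε / 4) * k :=
          mul_le_mul_of_nonneg_left h2 (by positivity)
        refine le_trans ?_ h4
        have h5 : 32 ≤ L * ε := by
          rw [div_le_iff₀ hε] at hN1'
          exact hN1'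
        nlinarith [mul_pos hLpos hε, mul_pos hLpos hδ0, mul_le_mul_of_nonneg_left hδ2 hLpos.le]
      · have h4 : 2 * (k : ℝ) ≤ (1 + ε / 4) * k := by nlinarith
        have h5 : L * (1 / 2) ≤ L * (1 - δ) := mul_le_mul_of_nonneg_left (by linarith) hLpos.le
        push Not at hε1
        nlinarith
    have h7 : (N : ℝ) / L * L = N := by field_simp
    have h8 : 0 < (N : ℝ) / L := by positivity
    nlinarith [mul_le_mul_of_nonneg_left h1 h8.le]
  have hB : (2 : ℝ) ^ k ≤ ε / 4 * (N / L) := by
    refine hpow.trans ?_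
    have h1 : (0 : ℝ) < (N : ℝ) ^ δ := Real.rpow_pos_of_pos hNpos δ
    rw [div_le_iff₀ h1] at hN2
    rw [div_le_iff₀ h1]
    have h2 : (N : ℝ) / L * L = N := by field_simp
    have h3 : 0 < (N : ℝ) / L := by positivity
    nlinarith [mul_le_mul_of_nonneg_left hN2 h3.le]
  have hC : (2 : ℝ) ≤ ε / 4 * (N / L) := by
    have h1 : 2 * (L / N) * N = 2 * L := by field_simp
    have h2 : 2 * L ≤ ε / 4 * N := by
      rw [← h1]
      exact mul_le_mul_of_nonneg_right hN3 hNpos.le
    rw [← mul_div_assoc, le_div_iff₀ hLpos]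
    exact h2
  calc (((Finset.Icc 1 N).filter fun d => dim (Q d) ≠ edim (Q d)).card : ℝ)
      ≤ Pool.Agent.U365.HC.vdim N + 2 := hcount'
    _ ≤ 2 * N / k + 2 ^ k + 2 := by linarith
    _ ≤ (2 + ε / 2) * (N / L) + ε / 4 * (N / L) + ε / 4 * (N / L) := by linarith
    _ = (2 + ε) * (N / L) := by ring

end Pool.Agent.Results.MP_41989c_co.AlmostAllDimensions
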